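import Pool.Agent.Run7.h67.SR.Tools

/-!
# RES (project SR, helper245): reduction of an even element, by helper67
-/

set_option autoImplicit false
set_option linter.all false

open Polynomial IsDedekindDomain Matrix NumberField WithZero
open scoped Classical

namespace Pool.Agent.Run7.h67.SR

open Pool.Agent.N874.PP (Ev Sq1 U0)
open Pool.Agent.N783.PF
open Pool.Agent.Run7.h245.SR (S_GAT S_RES)
open Pool.Agent.N862.PF (ev ev_L ev_f ev_X ev_C ev_ker fin_ov theta_ex)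
open Pool.Agent.N426.PF (toG minp irrK ov_comap ov_iff)

section main

variable {F L : Type} [Field F] [NumberField F] [Field L] [NumberField L] [Algebra F L]
  {g : ℕ} {f : (𝓞 F)[X]} {θ : L}

theorem aeval_fF (a : (𝓞 F)[X]) : aeval θ (fF a) = aeval θ a := by
  rw [aeval_map_algebraMap]

/-- an integral polynomial whose value is a unit at all primes over `w` is coprime to `f` mod `w` -/
theorem coprime_of_unit (h : IsGen g f θ) (w : HeightOneSpectrum (𝓞 F)) {a : (𝓞 F)[X]}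
    (ha : ∀ 𝔓 : HeightOneSpectrum (𝓞 L), Ov w.asIdeal 𝔓 → 𝔓.valuation L (aeval θ (fF a)) = 1) :
    IsCoprime (rd w.asIdeal a) (rd w.asIdeal f) := by
  letI : Field (𝓞 F ⧸ w.asIdeal) := @Ideal.Quotient.field _ _ w.asIdeal w.isMaximal
  obtain ⟨t, ht⟩ := theta_ex h
  rw [← EuclideanDomain.gcd_isUnit_iff]
  by_contra hu
  have hf0 : rd w.asIdeal f ≠ 0 := (h.mon.map _).ne_zero
  have hg0 : EuclideanDomain.gcd (rd w.asIdeal a) (rd w.asIdeal f) ≠ 0 := by
    intro h0
    exact hf0 (EuclideanDomain.gcd_eq_zero_iff.1 h0).2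
  obtain ⟨m, hm, hmd⟩ := WfDvdMonoid.exists_irreducible_factor hu hg0
  obtain ⟨𝔓, ov, hk⟩ := ex_prime' h ht w.ne_bot (Ideal.Quotient.mk w.asIdeal)
    (fun a ha => Ideal.Quotient.eq_zero_iff_mem.2 ha) m hm
    (hmd.trans (EuclideanDomain.gcd_dvd_right _ _))
  have h1 := (hk a).2 (hmd.trans (EuclideanDomain.gcd_dvd_left _ _))
  have h2 := ha 𝔓 ov
  rw [aeval_fF, ← ev_L ht] at h2
  exact (𝔓.valuation_eq_one_iff_notMem.1 h2) h1

/-- **RES** -/
theorem res (hG : S_GAT) : S_RES := by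
  intro g F L _ _ _ _ _ f θ h w hw hh hα hev
  obtain ⟨t, ht⟩ := theta_ex h
  have hfin := fin_ov (L := L) w.ne_bot
  set α : L := aeval θ hh with hαdef
  obtain ⟨s, hs0, hs⟩ := exists_s hfin.toFinset hα fun 𝔓 h𝔓 =>
    hev 𝔓 ((Set.Finite.mem_toFinset hfin).1 h𝔓)
  have hs' : ∀ 𝔓 : HeightOneSpectrum (𝓞 L), Ov w.asIdeal 𝔓 → 𝔓.valuation L (α / s ^ 2) = 1 :=
    fun 𝔓 h𝔓 => hs 𝔓 ((Set.Finite.mem_toFinset hfin).2 h𝔓)
  obtain ⟨m, hm, a₀, ha₀⟩ := hG g F L f θ h w hw (α / s ^ 2) fun 𝔓 h𝔓 => (hs' 𝔓 h𝔓).le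
  have hmF : (m : F) ≠ 0 := by
    intro h0
    apply hm
    have : m = 0 := by
      apply IsFractionRing.injective (𝓞 F) F
      rw [map_zero]
      exact h0
    rw [this]
    exact Ideal.zero_mem _
  have hmL : algebraMap F L (m : F) ≠ 0 := by
    rw [Ne, map_eq_zero]
    exact hmF
  obtain ⟨u, hu⟩ := exists_poly h (algebraMap F L (m : F) * α / s)
  have ha : aeval θ (fF (C m * a₀)) = algebraMap F L (m : F) ^ 2 * α / s ^ 2 := by
    have e1 : fF (C m * a₀) = C (m : F) * fF a₀ := by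
      rw [fF, Polynomial.map_mul, Polynomial.map_C]
    rw [e1, map_mul, aeval_C, ← ha₀]
    ring
  have hval : ∀ 𝔓 : HeightOneSpectrum (𝓞 L), Ov w.asIdeal 𝔓 →
      𝔓.valuation L (aeval θ (fF (C m * a₀))) = 1 := by
    intro 𝔓 h𝔓
    have h1 : 𝔓.valuation L (algebraMap F L (m : F)) = 1 := by
      have e : algebraMap F L (m : F) = algebraMap (𝓞 L) L (algebraMap (𝓞 F) (𝓞 L) m) := by
        rw [← IsScalarTower.algebraMap_apply (𝓞 F) (𝓞 L) L, IsScalarTower.algebraMap_apply (𝓞 F) F L]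
      rw [e]
      refine 𝔓.valuation_eq_one_iff_notMem.mpr ?_
      rw [ov_iff w.isPrime w.ne_bot h𝔓]
      exact hm
    rw [ha, mul_div_assoc, map_mul, map_pow, h1, hs' 𝔓 h𝔓, one_pow, one_mul]
  refine ⟨C m * a₀, u, ?_, ?_, coprime_of_unit h w hval, ?_⟩
  · apply dvd_of_aeval h
    rw [map_sub, map_mul, map_pow, ha, hu, ← hαdef]
    field_simp
    ring
  · rw [hu]
    exact div_ne_zero (mul_ne_zero hmL hα) hs0
  · intro hsq
    have h1 : IsSquare (Algebra.norm F (aeval θ (fF (C m * a₀)))) := by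
      have e : algebraMap F L (m : F) ^ 2 * α / s ^ 2 = α * (algebraMap F L (m : F) / s) ^ 2 := by
        ring
      rw [ha, e, map_mul, map_pow]
      exact hsq.mul (IsSquare.sq _)
    refine ⟨h1, ?_⟩
    rw [norm_int h] at h1
    obtain ⟨r, hr⟩ := h1
    have hint : IsIntegral (𝓞 F) r := by
      refine IsIntegral.of_pow (n := 2) (by norm_num) ?_
      rw [sq, ← hr]
      exact isIntegral_algebraMap
    obtain ⟨r', rfl⟩ := IsIntegrallyClosed.isIntegral_iff.mp hint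
    have hr2 : Algebra.norm (𝓞 F) (AdjoinRoot.mk f (C m * a₀)) = r' * r' := by
      apply IsFractionRing.injective (𝓞 F) F
      rw [hr, map_mul]
    rw [norm_red h w.isPrime.ne_top, hr2, map_mul]
    exact ⟨_, rfl⟩

end main

end Pool.Agent.Run7.h67.SR
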