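import Pool.Agent.Run7.h67.SR.RES

/-!
# SQW (project SR, helper245): squares at all primes over `w` are squares over the completion
(by helper67)
-/

set_option autoImplicit false
set_option linter.all false

open Polynomial IsDedekindDomain Matrix NumberField WithZero
open scoped Classical

namespace Pool.Agent.Run7.h67.SR

open Pool.Agent.N874.PP (Ev Sq1 U0)
open Pool.Agent.N783.PF
open Pool.Agent.Run7.h245.SR (S_GAT S_RES S_HENQ S_SQW)
open Pool.Agent.N862.PF (ev ev_L ev_f ev_X ev_C ev_ker fin_ov theta_ex)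
open Pool.Agent.N426.PF (toG minp irrK ov_comap ov_iff)

/-- a polynomial which is a square modulo all irreducible factors of a squarefree `f` is a square
modulo `f` -/
theorem sq_of_factors {κ : Type} [Field κ] (a f : κ[X]) : Squarefree f →
    (∀ m, Irreducible m → m ∣ f → ∃ s, m ∣ a - s ^ 2) → ∃ s, f ∣ a - s ^ 2 := by
  refine UniqueFactorizationMonoid.induction_on_prime f ?_ ?_ ?_
  · intro h
    exact absurd h not_squarefree_zero
  · intro x hx _ _
    exact ⟨0, hx.dvd⟩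
  · intro x p hx0 hp ih hsq hm
    obtain ⟨s2, hs2⟩ := ih (hsq.squarefree_of_dvd (dvd_mul_left x p))
      fun m hm1 hm2 => hm m hm1 (hm2.trans (dvd_mul_left x p))
    obtain ⟨s1, hs1⟩ := hm p hp.irreducible (dvd_mul_right p x)
    have hcop : IsCoprime p x := by
      rw [hp.irreducible.coprime_iff_not_dvd]
      rintro ⟨y, rfl⟩
      have h1 := hsq p ⟨y, by ring⟩
      exact hp.not_unit h1
    obtain ⟨α, β, h1⟩ := hcop
    refine ⟨s1 * (β * x) + s2 * (α * p), ?_⟩
    have hcop : IsCoprime p x := ⟨α, β, h1⟩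
    refine hcop.mul_dvd ?_ ?_
    · have e : a - (s1 * (β * x) + s2 * (α * p)) ^ 2 = (a - s1 ^ 2) +
          p * (-(α * (s2 - s1)) * (s1 * (β * x) + s2 * (α * p) + s1)) := by
        have e1 : β * x = 1 - α * p := by rw [← h1]; ring
        rw [e1]
        ring
      rw [e]
      exact dvd_add hs1 (dvd_mul_right _ _)
    · have e : a - (s1 * (β * x) + s2 * (α * p)) ^ 2 = (a - s2 ^ 2) +
          x * (-(β * (s1 - s2)) * (s1 * (β * x) + s2 * (α * p) + s2)) := by
        have e1 : α * p = 1 - β * x := by rw [← h1]; ring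
        rw [e1]
        ring
      rw [e]
      exact dvd_add hs2 (dvd_mul_right _ _)

section main

variable {F L : Type} [Field F] [NumberField F] [Field L] [NumberField L] [Algebra F L]
  {g : ℕ} {f : (𝓞 F)[X]} {θ : L}

theorem mem_max (w : HeightOneSpectrum (𝓞 F)) {r : 𝓞 F} (hr : r ∈ w.asIdeal) :
    algebraMap (𝓞 F) (w.adicCompletionIntegers F) r ∈
      IsLocalRing.maximalIdeal (w.adicCompletionIntegers F) := by
  rw [IsLocalRing.mem_maximalIdeal, mem_nonunits_iff,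
    HeightOneSpectrum.adicCompletionIntegers.isUnit_iff_valued_eq_one]
  intro h
  have h1 : Valued.v ((algebraMap (𝓞 F) (w.adicCompletionIntegers F) r :
      w.adicCompletionIntegers F) : w.adicCompletion F) = w.valuation F (r : F) := by
    rw [HeightOneSpectrum.algebraMap_adicCompletionIntegers_apply]
    exact HeightOneSpectrum.valuedAdicCompletion_eq_valuation' w (r : F)
  rw [h1] at h
  exact (w.valuation_eq_one_iff_notMem.1 h) hr

theorem coeff_mem {w : Ideal (𝓞 F)} {p : (𝓞 F)[X]} (hp : rd w p = 0) (i : ℕ) : p.coeff i ∈ w := by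
  have h1 := congrArg (fun q : (𝓞 F ⧸ w)[X] => q.coeff i) hp
  simp only [coeff_map, coeff_zero] at h1
  exact Ideal.Quotient.eq_zero_iff_mem.1 h1

theorem rd_surj (w : Ideal (𝓞 F)) (q : (𝓞 F ⧸ w)[X]) : ∃ p : (𝓞 F)[X], rd w p = q :=
  Polynomial.map_surjective _ Ideal.Quotient.mk_surjective q

/-- a square modulo `(w, f)` is a square modulo `f` over the completion -/
theorem sq_completion (hQ : S_HENQ) (w : HeightOneSpectrum (𝓞 F)) {f a s : (𝓞 F)[X]}
    (hf : f.Monic) (h2 : (2 : 𝓞 F) ∉ w.asIdeal)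
    (hcop : IsCoprime (rd w.asIdeal a) (rd w.asIdeal f))
    (hs : rd w.asIdeal f ∣ rd w.asIdeal a - rd w.asIdeal s ^ 2) :
    ∃ y : (w.adicCompletionIntegers F)[X],
      f.map (algebraMap (𝓞 F) (w.adicCompletionIntegers F)) ∣
        a.map (algebraMap (𝓞 F) (w.adicCompletionIntegers F)) - y ^ 2 := by
  letI : Field (𝓞 F ⧸ w.asIdeal) := @Ideal.Quotient.field _ _ w.asIdeal w.isMaximal
  set ι := algebraMap (𝓞 F) (w.adicCompletionIntegers F) with hι
  obtain ⟨v₀, hv₀⟩ := hs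
  -- `2 s` is coprime to `f` modulo `w`
  have hsc : IsCoprime (rd w.asIdeal s) (rd w.asIdeal f) := by
    have h1 : IsCoprime (rd w.asIdeal s ^ 2) (rd w.asIdeal f) := by
      have e : rd w.asIdeal s ^ 2 = rd w.asIdeal a + rd w.asIdeal f * (-v₀) := by
        linear_combination -hv₀
      rw [e]
      exact hcop.add_mul_left_left _
    exact (IsCoprime.pow_left_iff two_pos).1 h1
  have h2k : (Ideal.Quotient.mk w.asIdeal (2 : 𝓞 F)) ≠ 0 := fun h =>
    h2 (Ideal.Quotient.eq_zero_iff_mem.1 h)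
  have h2s : IsCoprime (rd w.asIdeal (C 2 * s)) (rd w.asIdeal f) := by
    rw [rd, Polynomial.map_mul, Polynomial.map_C]
    have hu : IsUnit (C (Ideal.Quotient.mk w.asIdeal (2 : 𝓞 F)) : (𝓞 F ⧸ w.asIdeal)[X]) :=
      isUnit_C.2 (isUnit_iff_ne_zero.2 h2k)
    exact (isCoprime_mul_unit_left_left hu _ _).2 hsc
  obtain ⟨u₀, v₁, huv⟩ := h2s
  obtain ⟨u, hu⟩ := rd_surj w.asIdeal u₀
  obtain ⟨v', hv'⟩ := rd_surj w.asIdeal (-v₁)
  obtain ⟨v, hv⟩ := rd_surj w.asIdeal (-v₀)
  have k1 : rd w.asIdeal (s ^ 2 - a - f * v) = 0 := by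
    simp only [rd, Polynomial.map_sub, Polynomial.map_mul, Polynomial.map_pow]
    change rd w.asIdeal s ^ 2 - rd w.asIdeal a - rd w.asIdeal f * rd w.asIdeal v = 0
    rw [hv]
    linear_combination -hv₀
  have k2 : rd w.asIdeal (C 2 * s * u - 1 - f * v') = 0 := by
    have e : rd w.asIdeal (C 2 * s * u - 1 - f * v') = rd w.asIdeal (C 2 * s) * rd w.asIdeal u -
        1 - rd w.asIdeal f * rd w.asIdeal v' := by
      simp only [rd, Polynomial.map_sub, Polynomial.map_mul, Polynomial.map_one]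
    rw [e, hv', hu]
    linear_combination huv
  obtain ⟨y, hy⟩ := hQ F w (f.map ι) 0 (-(a.map ι)) (s.map ι) (u.map ι) (v.map ι) (v'.map ι)
    (hf.map ι) (by
      intro i
      have e : (s.map ι) ^ 2 + 0 * s.map ι + -(a.map ι) - f.map ι * v.map ι =
          (s ^ 2 - a - f * v).map ι := by
        rw [Polynomial.map_sub, Polynomial.map_sub, Polynomial.map_mul, Polynomial.map_pow]
        ring
      rw [e, coeff_map]
      exact mem_max w (coeff_mem k1 i)) (by
      intro i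
      have e : (2 * s.map ι + 0) * u.map ι - 1 - f.map ι * v'.map ι =
          (C 2 * s * u - 1 - f * v').map ι := by
        simp only [Polynomial.map_sub, Polynomial.map_mul, Polynomial.map_one]
        have e2 : (C (2 : 𝓞 F)).map ι = 2 := by
          rw [Polynomial.map_C, map_ofNat]
          exact map_ofNat C 2
        rw [e2]
        ring
      rw [e, coeff_map]
      exact mem_max w (coeff_mem k2 i))
  refine ⟨y, ?_⟩
  have e : a.map ι - y ^ 2 = -(y ^ 2 + 0 * y + -(a.map ι)) := by ring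
  rw [e]
  exact (dvd_neg).2 hy

/-- from `a` to `h` -/
theorem sq_of_henq (hG : IsGen g f θ) (w : HeightOneSpectrum (𝓞 F)) {a : (𝓞 F)[X]} {u h : F[X]}
    (hdiv : fF f ∣ h * fF a - u ^ 2) (hu : aeval θ u ≠ 0) {y : (w.adicCompletionIntegers F)[X]}
    (hy : f.map (algebraMap (𝓞 F) (w.adicCompletionIntegers F)) ∣
        a.map (algebraMap (𝓞 F) (w.adicCompletionIntegers F)) - y ^ 2) :
    ∃ s : (w.adicCompletion F)[X], (fF f).map (algebraMap F (w.adicCompletion F)) ∣
      h.map (algebraMap F (w.adicCompletion F)) - s ^ 2 := by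
  have ha0 : aeval θ (fF a) ≠ 0 := by
    intro h0
    have h1 := aeval_zero_of_dvd hG hdiv
    rw [map_sub, map_mul, map_pow, h0, mul_zero, zero_sub, neg_eq_zero] at h1
    exact hu (pow_eq_zero_iff (two_ne_zero)|>.1 h1)
  have hcop : IsCoprime (fF f) (fF a) := by
    rw [(irr_fF hG).coprime_iff_not_dvd]
    intro h1
    exact ha0 (aeval_zero_of_dvd hG h1)
  obtain ⟨b, a', hab⟩ := hcop
  set κ := algebraMap F (w.adicCompletion F) with hκ
  set ι := algebraMap (w.adicCompletionIntegers F) (w.adicCompletion F) with hι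
  have e0 : ∀ p : (𝓞 F)[X], (p.map (algebraMap (𝓞 F) (w.adicCompletionIntegers F))).map ι =
      (fF p).map κ := by
    intro p
    rw [fF, Polynomial.map_map, Polynomial.map_map]
    congr 1
  have hy' := Polynomial.map_dvd ι hy
  rw [Polynomial.map_sub, Polynomial.map_pow, e0, e0] at hy'
  have hd' := Polynomial.map_dvd κ hdiv
  rw [Polynomial.map_sub, Polynomial.map_mul, Polynomial.map_pow] at hd'
  have hab' := congrArg (Polynomial.map κ) hab
  rw [Polynomial.map_add, Polynomial.map_mul, Polynomial.map_mul, Polynomial.map_one] at hab'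
  obtain ⟨c1, hc1⟩ := hy'
  obtain ⟨c2, hc2⟩ := hd'
  refine ⟨u.map κ * y.map ι * a'.map κ, ?_⟩
  set f' := (fF f).map κ
  set A := (fF a).map κ
  set A' := a'.map κ
  set B := b.map κ
  set H := h.map κ
  set U := u.map κ
  set Y := y.map ι
  -- `A - Y² = f' c1`, `H A - U² = f' c2`, `B f' + A' A = 1`
  refine ⟨H * B * (1 + A' * A) + c2 * A * A' ^ 2 + U ^ 2 * c1 * A' ^ 2, ?_⟩
  linear_combination (-H * (1 + A' * A)) * hab' + (A * A' ^ 2) * hc2 + (U ^ 2 * A' ^ 2) * hc1

/-- **SQW** -/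
theorem sqw (h0 : S_GAT) (h1 : S_RES) (h2 : S_HENQ) (h3 : S_DSC) : S_SQW := by
  intro g F L _ _ _ _ _ f θ hg hG w h2w hsep hh hα hsq
  obtain ⟨t, ht⟩ := theta_ex hG
  -- the discriminant
  have hdsc : dsc g f ∉ w.asIdeal ^ 2 := by
    have h4 := h3 F g w.asIdeal f f hg w.isPrime w.ne_bot hG.mon hG.deg
      (fun j => by rw [sub_self]; exact Ideal.zero_mem _) hsep
    exact fun h5 => h4 (Ideal.pow_le_self two_ne_zero h5)
  -- `Sq1` implies `Ev`
  have hev : ∀ 𝔓 : HeightOneSpectrum (𝓞 L), Ov w.asIdeal 𝔓 → Ev 𝔓 (aeval θ hh) := by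
    intro 𝔓 h𝔓
    obtain ⟨s, hs⟩ := hsq 𝔓 h𝔓
    refine ⟨s, ?_⟩
    have h4 : 𝔓.valuation L (aeval θ hh - (aeval θ hh - s ^ 2)) = 𝔓.valuation L (aeval θ hh) :=
      Valuation.map_sub_eq_of_lt_left _ hs
    rw [sub_sub_cancel, map_pow] at h4
    exact h4.symm
  obtain ⟨a, u, hdiv, hu, hcop, -⟩ := h1 g F L f θ hG w hdsc hh hα hev
  have hau : aeval θ hh * aeval θ (fF a) = aeval θ u ^ 2 := by
    have h4 := aeval_zero_of_dvd hG hdiv
    rw [map_sub, map_mul, map_pow, sub_eq_zero] at h4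
    exact h4
  have ha0 : aeval θ (fF a) ≠ 0 := by
    intro h4
    rw [h4, mul_zero] at hau
    exact hu (pow_eq_zero_iff (two_ne_zero)|>.1 hau.symm)
  have hsqa : ∀ 𝔓 : HeightOneSpectrum (𝓞 L), Ov w.asIdeal 𝔓 → Sq1 𝔓 (aeval θ (fF a)) := by
    intro 𝔓 h𝔓
    have e : aeval θ (fF a) = aeval θ hh * (aeval θ u / aeval θ hh) ^ 2 := by
      field_simp
      linear_combination hau
    rw [e, Pool.Agent.N862.PP.sq1_mul_sq (div_ne_zero hu hα)]
    exact hsq 𝔓 h𝔓
  letI : Field (𝓞 F ⧸ w.asIdeal) := @Ideal.Quotient.field _ _ w.asIdeal w.isMaximal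
  -- a square modulo all irreducible factors
  obtain ⟨s, hs⟩ := sq_of_factors (rd w.asIdeal a) (rd w.asIdeal f) hsep.squarefree (by
    intro m hm hmf
    obtain ⟨𝔓, ov, hk⟩ := ex_prime' hG ht w.ne_bot (Ideal.Quotient.mk w.asIdeal)
      (fun a ha => Ideal.Quotient.eq_zero_iff_mem.2 ha) m hm hmf
    -- `a` is a unit at `𝔓`
    have haP : ev F t a ∉ 𝔓.asIdeal := by
      intro h4
      have h5 := (hk a).1 h4
      exact hm.not_isUnit (hcop.isUnit_of_dvd' h5 hmf)
    have hva : 𝔓.valuation L (aeval θ (fF a)) = 1 := by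
      rw [aeval_fF, ← ev_L ht]
      exact 𝔓.valuation_eq_one_iff_notMem.2 haP
    obtain ⟨s, hs⟩ := hsqa 𝔓 ov
    rw [hva] at hs
    have hvs : 𝔓.valuation L s ≤ 1 := by
      have h4 : 𝔓.valuation L (aeval θ (fF a) - (aeval θ (fF a) - s ^ 2)) =
          𝔓.valuation L (aeval θ (fF a)) := by
        refine Valuation.map_sub_eq_of_lt_left _ ?_
        rw [hva]
        exact hs
      rw [sub_sub_cancel, map_pow, hva] at h4
      by_contra h5
      rw [not_le] at h5
      exact absurd h4 (one_lt_pow₀ h5 two_ne_zero).ne'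
    obtain ⟨n, d, hnd⟩ := 𝔓.exists_primeCompl_mul_eq_of_integer s hvs
    have hd : (d : 𝓞 L) ∉ 𝔓.asIdeal := d.2
    have hmax : 𝔓.asIdeal.IsMaximal := 𝔓.isMaximal
    obtain ⟨c, i, hi, hci⟩ := hmax.exists_inv hd
    -- `z = c n` is congruent to `s`
    have hz1 : 𝔓.valuation L (algebraMap (𝓞 L) L (c * n) - s) < 1 := by
      have e : algebraMap (𝓞 L) L (c * n) - s = -(s * algebraMap (𝓞 L) L i) := by
        have e2 : algebraMap (𝓞 L) L i = 1 - algebraMap (𝓞 L) L c * algebraMap (𝓞 L) L d := by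
          rw [← map_mul, ← map_one (algebraMap (𝓞 L) L), ← map_sub, ← hci]
          congr 1
          ring
        rw [map_mul, ← hnd, e2]
        ring
      rw [e, Valuation.map_neg, map_mul]
      have h6 : 𝔓.valuation L (algebraMap (𝓞 L) L i) < 1 :=
        (𝔓.valuation_lt_one_iff_mem (K := L) _).2 hi
      calc _ ≤ 1 * 𝔓.valuation L (algebraMap (𝓞 L) L i) := mul_le_mul_left hvs _
        _ < 1 := by rw [one_mul]; exact h6
    have hz : ev F t a - (c * n) ^ 2 ∈ 𝔓.asIdeal := by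
      apply (𝔓.valuation_lt_one_iff_mem (K := L) _).1
      change 𝔓.valuation L (algebraMap (𝓞 L) L (ev F t a - (c * n) ^ 2)) < 1
      have e : algebraMap (𝓞 L) L (ev F t a - (c * n) ^ 2) = (aeval θ (fF a) - s ^ 2) -
          (algebraMap (𝓞 L) L (c * n) - s) * (algebraMap (𝓞 L) L (c * n) + s) := by
        rw [map_sub, map_pow, ev_L ht, aeval_fF]
        ring
      rw [e]
      refine lt_of_le_of_lt (Valuation.map_sub _ _ _) (max_lt hs ?_)
      rw [map_mul]
      have h7 : 𝔓.valuation L (algebraMap (𝓞 L) L (c * n) + s) ≤ 1 :=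
        (Valuation.map_add _ _ _).trans (max_le (𝔓.valuation_le_one _) hvs)
      calc _ ≤ 𝔓.valuation L (algebraMap (𝓞 L) L (c * n) - s) * 1 := mul_le_mul_right h7 _
        _ < 1 := by rw [mul_one]; exact hz1
    obtain ⟨m₁, hm₁, b, hb⟩ := h0 g F L f θ hG w hdsc (algebraMap (𝓞 L) L (c * n))
      fun 𝔔 _ => 𝔔.valuation_le_one _
    obtain ⟨e₁, j, hj, hej⟩ := w.isMaximal.exists_inv hm₁
    refine ⟨rd w.asIdeal (C e₁ * b), ?_⟩
    have hb' : algebraMap (𝓞 F) (𝓞 L) m₁ * (c * n) = ev F t b := by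
      apply IsFractionRing.injective (𝓞 L) L
      rw [ev_L ht, ← aeval_fF, ← hb, map_mul, ← IsScalarTower.algebraMap_apply (𝓞 F) (𝓞 L) L,
        IsScalarTower.algebraMap_apply (𝓞 F) F L]
    have e : rd w.asIdeal a - rd w.asIdeal (C e₁ * b) ^ 2 = rd w.asIdeal (a - (C e₁ * b) ^ 2) := by
      rw [rd, rd, rd, Polynomial.map_sub, Polynomial.map_pow]
    rw [e]
    apply (hk _).1
    rw [map_sub, map_pow, map_mul, ev_C, ← hb']
    have hej' : algebraMap (𝓞 F) (𝓞 L) j = 1 - algebraMap (𝓞 F) (𝓞 L) e₁ *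
        algebraMap (𝓞 F) (𝓞 L) m₁ := by
      rw [← map_mul, ← map_one (algebraMap (𝓞 F) (𝓞 L)), ← map_sub, ← hej]
      congr 1
      ring
    have hjP : algebraMap (𝓞 F) (𝓞 L) j ∈ 𝔓.asIdeal := ov j hj
    have e2 : ev F t a - (algebraMap (𝓞 F) (𝓞 L) e₁ * (algebraMap (𝓞 F) (𝓞 L) m₁ * (c * n))) ^ 2 =
        (ev F t a - (c * n) ^ 2) + algebraMap (𝓞 F) (𝓞 L) j *
          ((1 + algebraMap (𝓞 F) (𝓞 L) e₁ * algebraMap (𝓞 F) (𝓞 L) m₁) * (c * n) ^ 2) := by
      rw [hej']
      ring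
    rw [e2]
    exact 𝔓.asIdeal.add_mem hz (𝔓.asIdeal.mul_mem_right _ hjP))
  obtain ⟨s', rfl⟩ := rd_surj w.asIdeal s
  obtain ⟨y, hy⟩ := sq_completion h2 w hG.mon h2w hcop hs
  exact sq_of_henq hG w hdiv hu hy

end main

end Pool.Agent.Run7.h67.SR
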