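import Pool.Agent.Run7.h245.SR.Iface2
import Pool.Agent.N862.PF.TV
import Pool.Agent.N426.PF.Par

/-!
# Tools for the local statements of project SR (helper245), by helper67
-/

set_option autoImplicit false
set_option linter.all false

open Polynomial IsDedekindDomain Matrix NumberField WithZero
open scoped Classical

namespace Pool.Agent.Run7.h67.SR

open Pool.Agent.N874.PP (Ev Sq1 U0)
open Pool.Agent.N783.PF
open Pool.Agent.N862.PF (ev ev_L ev_f ev_X ev_C ev_ker fin_ov theta_ex)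
open Pool.Agent.N426.PF (toG minp irrK ov_comap ov_iff)

/-! ### Norms -/

/-- the norm in `R[X] / (f)` is compatible with changes of the ring -/
theorem norm_mk_map {R K : Type} [CommRing R] [CommRing K] [Nontrivial K] (φ : R →+* K) {f : R[X]}
    (hf : f.Monic) (a : R[X]) :
    φ (Algebra.norm R (AdjoinRoot.mk f a)) =
      Algebra.norm K (AdjoinRoot.mk (f.map φ) (a.map φ)) := by
  have hf' : (f.map φ).Monic := hf.map φ
  haveI : Nontrivial R := φ.domain_nontrivial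
  have hd : (f.map φ).natDegree = f.natDegree := hf.natDegree_map φ
  let b := AdjoinRoot.powerBasisAux' hf
  let b' := AdjoinRoot.powerBasisAux' hf'
  have hb : ∀ j, b j = AdjoinRoot.mk f (X ^ (j : ℕ)) := by
    intro j
    have := (AdjoinRoot.powerBasis' hf).basis_eq_pow j
    rw [AdjoinRoot.powerBasis'_gen] at this
    rw [map_pow]
    exact this
  have hb' : ∀ j, b' j = AdjoinRoot.mk (f.map φ) (X ^ (j : ℕ)) := by
    intro j
    have := (AdjoinRoot.powerBasis' hf').basis_eq_pow j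
    rw [AdjoinRoot.powerBasis'_gen] at this
    rw [map_pow]
    exact this
  rw [Algebra.norm_eq_matrix_det b, Algebra.norm_eq_matrix_det b', RingHom.map_det,
    ← Matrix.det_reindex_self (finCongr hd) (Algebra.leftMulMatrix b' _)]
  congr 1
  ext i j
  rw [RingHom.mapMatrix_apply, Matrix.map_apply, Matrix.reindex_apply, Matrix.submatrix_apply,
    Algebra.leftMulMatrix_eq_repr_mul, Algebra.leftMulMatrix_eq_repr_mul, hb, hb',
    ← map_mul, ← map_mul]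
  change φ ((AdjoinRoot.powerBasisAux' hf).repr _ i) = (AdjoinRoot.powerBasisAux' hf').repr _ _
  rw [AdjoinRoot.powerBasisAux'_repr_apply_to_fun, AdjoinRoot.powerBasisAux'_repr_apply_to_fun,
    AdjoinRoot.modByMonicHom_mk, AdjoinRoot.modByMonicHom_mk, ← Polynomial.coeff_map,
    Polynomial.map_modByMonic _ hf, Polynomial.map_mul, Polynomial.map_pow, Polynomial.map_X]
  rfl

section main

variable {F L : Type} [Field F] [NumberField F] [Field L] [NumberField L] [Algebra F L]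
  {g : ℕ} {f : (𝓞 F)[X]} {θ : L}

theorem dvd_of_aeval (h : IsGen g f θ) {p : F[X]} (hp : aeval θ p = 0) : fF f ∣ p := by
  have h1 := minpoly.dvd F θ hp
  rwa [minp (toG h)] at h1

theorem irr_fF (h : IsGen g f θ) : Irreducible (fF f) := irrK (toG h)

theorem aeval_zero_of_dvd (h : IsGen g f θ) {p : F[X]} (hp : fF f ∣ p) : aeval θ p = 0 := by
  obtain ⟨c, rfl⟩ := hp
  rw [map_mul, h.root, zero_mul]

theorem exists_poly (h : IsGen g f θ) (x : L) : ∃ p : F[X], aeval θ p = x := by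
  obtain ⟨c, rfl⟩ := h.gen x
  refine ⟨∑ i, C (c i) * X ^ (i : ℕ), ?_⟩
  rw [map_sum]
  refine Finset.sum_congr rfl fun i _ => ?_
  rw [map_mul, map_pow, aeval_X, aeval_C]

/-- the norm of `a(θ)` -/
theorem norm_aeval (h : IsGen g f θ) (p : F[X]) :
    Algebra.norm F (aeval θ p) = Algebra.norm F (AdjoinRoot.mk (fF f) p) := by
  haveI : Fact (Irreducible (fF f)) := ⟨irr_fF h⟩
  have hroot : (fF f).eval₂ ((Algebra.ofId F L : F →ₐ[F] L) : F →+* L) θ = 0 := by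
    have h1 := h.root
    rw [aeval_def] at h1
    exact h1
  let e₀ : AdjoinRoot (fF f) →ₐ[F] L := AdjoinRoot.liftAlgHom (fF f) (Algebra.ofId F L) θ hroot
  have he₀ : ∀ q : F[X], e₀ (AdjoinRoot.mk (fF f) q) = aeval θ q := by
    intro q
    exact AdjoinRoot.liftAlgHom_mk (fF f) (Algebra.ofId F L) θ hroot q
  have hbij : Function.Bijective e₀ := by
    refine ⟨e₀.toRingHom.injective, fun x => ?_⟩
    obtain ⟨q, rfl⟩ := exists_poly h x
    exact ⟨_, he₀ q⟩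
  let e := AlgEquiv.ofBijective e₀ hbij
  rw [← Algebra.norm_eq_of_algEquiv e (AdjoinRoot.mk (fF f) p)]
  exact congrArg _ (he₀ p).symm

/-- the norm of `a(θ)` for an integral polynomial `a` -/
theorem norm_int (h : IsGen g f θ) (a : (𝓞 F)[X]) :
    Algebra.norm F (aeval θ (fF a)) =
      algebraMap (𝓞 F) F (Algebra.norm (𝓞 F) (AdjoinRoot.mk f a)) := by
  rw [norm_aeval h, norm_mk_map (algebraMap (𝓞 F) F) h.mon]

theorem norm_red (h : IsGen g f θ) {w : Ideal (𝓞 F)} (hw : w ≠ ⊤) (a : (𝓞 F)[X]) :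
    Algebra.norm (𝓞 F ⧸ w) (AdjoinRoot.mk (rd w f) (rd w a)) =
      Ideal.Quotient.mk w (Algebra.norm (𝓞 F) (AdjoinRoot.mk f a)) := by
  haveI : Nontrivial (𝓞 F ⧸ w) := Ideal.Quotient.nontrivial_iff.2 hw
  rw [norm_mk_map (Ideal.Quotient.mk w) h.mon]

/-! ### Primes over `w` -/

/-- the prime of a factor of `f` modulo `w` (lying over) -/
theorem ex_prime' (h : IsGen g f θ) {t : 𝓞 L} (ht : algebraMap (𝓞 L) L t = θ)
    {w : Ideal (𝓞 F)} (hw0 : w ≠ ⊥) {κ : Type} [Field κ] (φ : 𝓞 F →+* κ)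
    (hφ : ∀ a ∈ w, φ a = 0) (m : κ[X]) (hmi : Irreducible m) (hm : m ∣ f.map φ) :
    ∃ 𝔓 : HeightOneSpectrum (𝓞 L), Ov w 𝔓 ∧
      ∀ p : (𝓞 F)[X], ev F t p ∈ 𝔓.asIdeal ↔ m ∣ p.map φ := by
  haveI : Fact (Irreducible m) := ⟨hmi⟩
  let ψ : (𝓞 F)[X] →+* AdjoinRoot m := (AdjoinRoot.mk m).comp (mapRingHom φ)
  have hψ : ∀ p, ψ p = AdjoinRoot.mk m (p.map φ) := fun p => rfl
  letI : Algebra (𝓞 F)[X] (𝓞 L) := (ev F t).toAlgebra
  have hal : algebraMap (𝓞 F)[X] (𝓞 L) = ev F t := rfl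
  haveI : Algebra.IsIntegral (𝓞 F)[X] (𝓞 L) := by
    refine ⟨fun x => ?_⟩
    have h1 : IsIntegral ℤ x := NumberField.RingOfIntegers.isIntegral x
    exact h1.tower_top
  haveI : (RingHom.ker ψ).IsPrime := RingHom.ker_isPrime ψ
  obtain ⟨Q, -, hQp, hQ⟩ := Ideal.exists_ideal_over_prime_of_isIntegral (RingHom.ker ψ)
    (⊥ : Ideal (𝓞 L)) (by
      intro p hp
      rw [Ideal.mem_comap, hal, Ideal.mem_bot] at hp
      obtain ⟨c, rfl⟩ := ev_ker h ht hp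
      rw [RingHom.mem_ker, hψ, Polynomial.map_mul, map_mul, AdjoinRoot.mk_eq_zero.2 hm, zero_mul])
  have hmem : ∀ p : (𝓞 F)[X], ev F t p ∈ Q ↔ m ∣ p.map φ := by
    intro p
    rw [← hal, ← Ideal.mem_comap, hQ, RingHom.mem_ker, hψ, AdjoinRoot.mk_eq_zero]
  have hov : ∀ a ∈ w, algebraMap (𝓞 F) (𝓞 L) a ∈ Q := by
    intro a ha
    rw [← ev_C t a, hmem, Polynomial.map_C, hφ a ha, map_zero]
    exact dvd_zero _
  refine ⟨⟨Q, hQp, fun h0 => ?_⟩, hov, hmem⟩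
  obtain ⟨a, ha, ha0⟩ := Submodule.exists_mem_ne_zero_of_ne_bot hw0
  have h1 := hov a ha
  rw [h0, Ideal.mem_bot] at h1
  exact ha0 ((map_eq_zero_iff _ (FaithfulSMul.algebraMap_injective (𝓞 F) (𝓞 L))).1 h1)

/-- elements with given valuations -/
theorem exists_val (T : Finset (HeightOneSpectrum (𝓞 L))) (n : HeightOneSpectrum (𝓞 L) → ℕ) :
    ∃ y : 𝓞 L, y ≠ 0 ∧ ∀ 𝔓 ∈ T, 𝔓.valuation L (algebraMap (𝓞 L) L y) = exp (-(n 𝔓 : ℤ)) := by
  rcases T.eq_empty_or_nonempty with rfl | hT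
  · exact ⟨1, one_ne_zero, fun 𝔓 h => absurd h (Finset.notMem_empty _)⟩
  have hex : ∀ 𝔓 : HeightOneSpectrum (𝓞 L), ∃ x : 𝓞 L, 𝔓.intValuation x = exp (-(n 𝔓 : ℤ)) := by
    intro 𝔓
    obtain ⟨π, hπ⟩ := 𝔓.intValuation_exists_uniformizer
    refine ⟨π ^ n 𝔓, ?_⟩
    rw [map_pow, hπ, ← WithZero.exp_nsmul]
    congr 1
    simp
  choose x hx using hex
  obtain ⟨y, hy⟩ := IsDedekindDomain.exists_forall_sub_mem_ideal (s := T)
    (fun 𝔓 : HeightOneSpectrum (𝓞 L) => 𝔓.asIdeal) (fun 𝔓 => n 𝔓 + 1)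
    (fun 𝔓 _ => 𝔓.prime) (fun 𝔓 _ 𝔔 _ hne h => hne (HeightOneSpectrum.ext h))
    (fun 𝔓 => x 𝔓.1)
  have hv : ∀ 𝔓 ∈ T, 𝔓.intValuation y = exp (-(n 𝔓 : ℤ)) := by
    intro 𝔓 h𝔓
    have h1 := (𝔓.intValuation_le_pow_iff_mem _ (n 𝔓 + 1)).2 (hy 𝔓 h𝔓)
    have h2 : exp (-((n 𝔓 + 1 : ℕ) : ℤ)) < 𝔓.intValuation (x 𝔓) := by
      rw [hx, exp_lt_exp]
      push_cast
      omega
    have h3 := Valuation.map_add_eq_of_lt_left 𝔓.intValuation (lt_of_le_of_lt h1 h2)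
    have e : x 𝔓 + (y - x 𝔓) = y := by ring
    have h4 : 𝔓.intValuation (x 𝔓 + (y - x 𝔓)) = 𝔓.intValuation (x 𝔓) := h3
    rw [e] at h4
    rw [h4, hx]
  refine ⟨y, ?_, fun 𝔓 h𝔓 => ?_⟩
  · rintro rfl
    obtain ⟨𝔓, h𝔓⟩ := hT
    have := hv 𝔓 h𝔓
    rw [map_zero] at this
    exact exp_ne_zero this.symm
  · rw [HeightOneSpectrum.valuation_of_algebraMap, hv 𝔓 h𝔓]

/-- dividing by a square to get a unit at finitely many primes -/
theorem exists_s (T : Finset (HeightOneSpectrum (𝓞 L))) {α : L} (hα : α ≠ 0)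
    (h : ∀ 𝔓 ∈ T, Ev 𝔓 α) :
    ∃ s : L, s ≠ 0 ∧ ∀ 𝔓 ∈ T, 𝔓.valuation L (α / s ^ 2) = 1 := by
  obtain ⟨z, d, hd, hzd⟩ := IsFractionRing.div_surjective (A := 𝓞 L) α
  have hd0 : d ≠ 0 := nonZeroDivisors.ne_zero hd
  have hdL : algebraMap (𝓞 L) L d ≠ 0 := by simpa using hd0
  have hz0 : z ≠ 0 := by
    rintro rfl
    rw [map_zero, zero_div] at hzd
    exact hα hzd.symm
  have hzd0 : z * d ≠ 0 := mul_ne_zero hz0 hd0
  have e1 : α * algebraMap (𝓞 L) L d ^ 2 = algebraMap (𝓞 L) L (z * d) := by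
    rw [← hzd, map_mul]
    field_simp
  have hev : ∀ 𝔓 ∈ T, Even ((UniqueFactorizationMonoid.normalizedFactors
      (Ideal.span {z * d})).count 𝔓.asIdeal) := by
    intro 𝔓 h𝔓
    rw [← Pool.Agent.N862.PP.ev_iff_count (L := L) 𝔓 hzd0, ← e1,
      Pool.Agent.N862.PP.ev_mul_sq 𝔓 hdL]
    exact h 𝔓 h𝔓
  obtain ⟨y, hy0, hy⟩ := exists_val T (fun 𝔓 => ((UniqueFactorizationMonoid.normalizedFactors
      (Ideal.span {z * d})).count 𝔓.asIdeal) / 2)
  have hyL : algebraMap (𝓞 L) L y ≠ 0 := by simpa using hy0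
  refine ⟨algebraMap (𝓞 L) L y / algebraMap (𝓞 L) L d, div_ne_zero hyL hdL, fun 𝔓 h𝔓 => ?_⟩
  have e2 : α / (algebraMap (𝓞 L) L y / algebraMap (𝓞 L) L d) ^ 2 =
      algebraMap (𝓞 L) L (z * d) / algebraMap (𝓞 L) L y ^ 2 := by
    rw [← e1]
    field_simp
  rw [e2, map_div₀, map_pow, hy 𝔓 h𝔓, Pool.Agent.N862.PP.val_eq 𝔓 hzd0, ← WithZero.exp_nsmul]
  obtain ⟨k, hk⟩ := hev 𝔓 h𝔓
  rw [hk, ← exp_sub]
  have e3 : (k + k) / 2 = k := by omega
  rw [e3]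
  have e4 : (-(((k + k : ℕ)) : ℤ)) - 2 • (-(k : ℤ)) = 0 := by
    push_cast
    ring
  rw [e4, exp_zero]

end main

end Pool.Agent.Run7.h67.SR
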